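import Pool.Agent.R349.Short2

/-!
# Sequences of algebraic points and the determinant method for small discs

Consequences of `Pool.Agent.R349.Gen.shortS` for one curve: sequences of points `x_n` with
`‖x_n - x_l‖ ≤ h(n) ^ (-c)` for `n ≤ l`, and the points `1 / l`.
-/

set_option autoImplicit false

open NumberField

namespace Pool.Agent.H43S

open Pool.Agent.R349.Gen (GoodG AdmG)
open Pool.Agent.Y124 (LocInd)

theorem good_mono {σ : Type} {g : ℕ} {F : Type} [Field F] [NumberField F] {ι : F →+* ℂ} {ξ : Fin g → ℂ} {d : ℕ}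
    {H H' δ δ' : ℝ} {v : σ → ℂ} (hH : H' ≤ H) (hδ : δ' ≤ δ) (h : GoodG F ι ξ d H δ v) : GoodG F ι ξ d H' δ' v := by
  refine ⟨fun P hP s => ?_, fun Q hQ hQd hQc => h.2 Q hQ hQd fun s φ => (hQc s φ).trans hH⟩
  refine (mul_le_mul_of_nonneg_right hδ (norm_nonneg _)).trans (h.1 P ⟨hP.1, fun s => ?_⟩ s)
  obtain ⟨c, hc1, hc2⟩ := hP.2 s
  exact ⟨c, fun i φ => (hc1 i φ).trans hH, hc2⟩

theorem good_reindex {σ τ : Type} [Fintype σ] [Fintype τ] (e : σ ≃ τ) {g : ℕ} {F : Type} [Field F] [NumberField F]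
    {ι : F →+* ℂ} {ξ : Fin g → ℂ} {d : ℕ} {H δ : ℝ} {v : τ → ℂ} (h : GoodG F ι ξ d H δ fun q => v (e q)) :
    GoodG F ι ξ d H δ v := by
  refine ⟨fun P hP s => ?_, fun Q hQ hQd hQc => ?_⟩
  · have h1 := h.1 (MvPolynomial.rename e.symm P) ⟨fun y => ?_, fun s => ?_⟩ (s.mapDomain e.symm)
    · rw [MvPolynomial.coeff_rename_mapDomain _ e.symm.injective, MvPolynomial.aeval_rename] at h1
      have h2 : (fun q => v (e q)) ∘ e.symm = v := by
        funext q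
        simp
      rwa [h2] at h1
    · obtain ⟨x, rfl⟩ := e.symm.surjective y
      rw [MvPolynomial.degreeOf_rename_of_injective e.symm.injective]
      exact hP.1 x
    · obtain ⟨s, rfl⟩ : ∃ s', s = Finsupp.mapDomain e.symm s' :=
        ⟨s.mapDomain e, by rw [← Finsupp.mapDomain_comp]; simp⟩
      rw [MvPolynomial.coeff_rename_mapDomain _ e.symm.injective]
      exact hP.2 s
  · have h1 := h.2 (MvPolynomial.rename (Option.map e.symm) Q) ?_ (fun y => ?_) (fun s => ?_)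
    · rw [MvPolynomial.eval₂_rename] at h1
      have h2 : (fun o : Option σ => o.elim (Real.pi : ℂ) fun q => v (e q)) ∘ Option.map e.symm =
          fun o => o.elim (Real.pi : ℂ) v := by
        funext o
        cases o with
        | none => rfl
        | some q => simp
      rwa [h2] at h1
    · intro h0
      exact hQ (MvPolynomial.rename_injective _ (Option.map_injective e.symm.injective) (by rw [h0, map_zero]))
    · obtain ⟨x, rfl⟩ : ∃ x, Option.map e.symm x = y := by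
        cases y with
        | none => exact ⟨none, rfl⟩
        | some q => exact ⟨some (e q), by simp⟩
      rw [MvPolynomial.degreeOf_rename_of_injective (Option.map_injective e.symm.injective)]
      exact hQd x
    · obtain ⟨s, rfl⟩ : ∃ s', s = Finsupp.mapDomain (Option.map e.symm) s' :=
        ⟨s.mapDomain (Option.map e), by rw [← Finsupp.mapDomain_comp, Option.map_comp_map]; simp⟩
      rw [MvPolynomial.coeff_rename_mapDomain _ (Option.map_injective e.symm.injective)]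
      exact hQc s

/-- sequences -/
theorem seqG {κ : Type} [Fintype κ] {U : Set ℂ} (hU : IsOpen U) (hc : IsPreconnected U) (y : κ → ℂ → ℂ)
    (hy : ∀ i, AnalyticOnNhd ℂ (y i) U) (hl : ∀ t ∈ U, LocInd y t) (m g d : ℕ)
    (K : Set ℂ) (hK : IsCompact K) (hKU : K ⊆ U) (A c τ : ℝ) (hA : 0 ≤ A) (hc0 : 0 < c) (hτ : 1 ≤ τ) :
    ∃ (B : ℝ) (C : ℕ) (T₀ : ℝ), 0 ≤ B ∧ ∀ (F : Type) [Field F] [NumberField F], Module.finrank ℚ F ≤ m →
      ∀ (ι : F →+* ℂ) (ξ : Fin g → ℂ) (h : ℕ → ℝ) (x : ℕ → F), (∀ n, ι (x n) ∈ K) →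
        (∀ n, ∃ a b : 𝓞 F, b ≠ 0 ∧ (∀ φ : F →+* ℂ, ‖φ a‖ ≤ h n ∧ ‖φ b‖ ≤ h n) ∧ x n = a / b) →
        (∀ n l, n ≤ l → ‖ι (x n) - ι (x l)‖ ≤ h n ^ (-c)) → ∀ T, T₀ ≤ T → ∀ S : Finset F,
        (∀ z ∈ S, ∃ n, z = x n ∧ T ≤ h n ∧ h n ≤ T ^ τ ∧
          ¬ GoodG F ι ξ d (h n ^ A) (h n ^ (-B)) (fun i => y i (ι (x n)))) → S.card ≤ C := by
  classical
  have hτ0 : 0 < τ := by linarith
  obtain ⟨B', C, T₀, hmain⟩ := Pool.Agent.R349.Gen.shortS m 1 g d (κ := fun _ => κ) (U := fun _ => U) (fun _ => hU)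
    (fun _ => hc) (fun _ => y) (fun _ => hy) (fun _ => hl) (fun _ => K) (fun _ => hK) (fun _ => hKU) A (c / τ)
    (by positivity)
  refine ⟨τ * max B' 0, C, max T₀ 1, by positivity, fun F _ _ hF ι ξ h x hxK hxh hxd T hT S hS => ?_⟩
  have hT1 : 1 ≤ T := (le_max_right _ _).trans hT
  have hT0 : 0 < T := by linarith
  set T' : ℝ := T ^ τ with hT'
  have hTT' : T ≤ T' := by
    rw [hT']
    calc T = T ^ (1 : ℝ) := (Real.rpow_one T).symm
      _ ≤ T ^ τ := Real.rpow_le_rpow_of_exponent_le hT1 hτ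
  have hT'1 : 1 ≤ T' := hT1.trans hTT'
  have hT'0 : 0 < T' := by linarith
  have hX1 : ∀ j : Fin 1, ∀ z ∈ (fun _ : Fin 1 => S) j, ι z ∈ (fun _ : Fin 1 => K) j ∧
      ∃ a b : 𝓞 F, b ≠ 0 ∧ (∀ φ : F →+* ℂ, ‖φ a‖ ≤ T' ∧ ‖φ b‖ ≤ T') ∧ z = a / b := by
    intro j z hz
    obtain ⟨n, rfl, h1, h2, -⟩ := hS z hz
    refine ⟨hxK n, ?_⟩
    obtain ⟨a, b, hb, hab, hx⟩ := hxh n
    exact ⟨a, b, hb, fun φ => ⟨(hab φ).1.trans h2, (hab φ).2.trans h2⟩, hx⟩
  have hX2 : ∀ j : Fin 1, ∀ z ∈ (fun _ : Fin 1 => S) j, ∀ z' ∈ (fun _ : Fin 1 => S) j,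
      ‖ι z - ι z'‖ ≤ T' ^ (-(c / τ)) := by
    have hle : ∀ n, T ≤ h n → h n ^ (-c) ≤ T' ^ (-(c / τ)) := by
      intro n hn
      have e1 : T' ^ (-(c / τ)) = T ^ (-c) := by
        rw [hT', ← Real.rpow_mul hT0.le]
        congr 1
        field_simp
      rw [e1]
      exact Real.rpow_le_rpow_of_nonpos hT0 hn (by linarith)
    intro j z hz z' hz'
    obtain ⟨n, rfl, h1, h2, -⟩ := hS z hz
    obtain ⟨l, rfl, h3, h4, -⟩ := hS z' hz'
    rcases le_total n l with hnl | hnl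
    · exact (hxd n l hnl).trans (hle n h1)
    · rw [norm_sub_rev]
      exact (hxd l n hnl).trans (hle l h3)
  have h1 := (hmain F hF ι ξ T' ((le_max_left _ _).trans (hT.trans hTT')) (fun _ => S) hX1 hX2).1
  have hset : {x : Fin 1 → F | (∀ j, x j ∈ (fun _ : Fin 1 => S) j) ∧ ¬ GoodG F ι ξ d (T' ^ A) (T' ^ (-B'))
      (fun q : Σ _ : Fin 1, κ => y q.2 (ι (x q.1)))} =
      (fun z : F => fun _ : Fin 1 => z) '' (S : Set F) := by
    ext x'
    constructor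
    · rintro ⟨h2, -⟩
      refine ⟨x' 0, Finset.mem_coe.2 (h2 0), ?_⟩
      funext j
      rw [Fin.fin_one_eq_zero j]
    · rintro ⟨z, hz, rfl⟩
      refine ⟨fun _ => Finset.mem_coe.1 hz, fun hgood => ?_⟩
      obtain ⟨n, rfl, h3, h4, h5⟩ := hS z (Finset.mem_coe.1 hz)
      apply h5
      have hn0 : 0 < h n := by linarith
      have hg : GoodG F ι ξ d (h n ^ A) (h n ^ (-(τ * max B' 0)))
          (fun q : Σ _ : Fin 1, κ => y q.2 (ι (x n))) := by
        refine good_mono (Real.rpow_le_rpow hn0.le h4 hA) ?_ hgood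
        calc h n ^ (-(τ * max B' 0)) ≤ T ^ (-(τ * max B' 0)) :=
              Real.rpow_le_rpow_of_nonpos hT0 h3 (by
                have : 0 ≤ τ * max B' 0 := by positivity
                linarith)
          _ = T' ^ (-(max B' 0)) := by
              rw [hT', ← Real.rpow_mul hT0.le]
              congr 1
              ring
          _ ≤ T' ^ (-B') := Real.rpow_le_rpow_of_exponent_le hT'1 (by
                have := le_max_left B' 0
                linarith)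
      exact good_reindex ((Equiv.sigmaEquivProd (Fin 1) κ).trans (Equiv.uniqueProd κ (Fin 1))) hg
  have hinj : Function.Injective (fun z : F => fun _ : Fin 1 => z) := fun a b h => congrFun h 0
  rw [hset, Set.ncard_image_of_injective _ hinj, Set.ncard_coe_finset] at h1
  simp only [Finset.univ_unique, Finset.sum_singleton, Finset.erase_singleton, Finset.prod_empty, mul_one] at h1
  exact_mod_cast h1

/-- the points `1 / l` -/
theorem nearG {κ : Type} [Fintype κ] {U : Set ℂ} (hU : IsOpen U) (hc : IsPreconnected U) (y : κ → ℂ → ℂ)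
    (hy : ∀ i, AnalyticOnNhd ℂ (y i) U) (hl : ∀ t ∈ U, LocInd y t) (h0 : (0 : ℂ) ∈ U) (m g d τ : ℕ) (A : ℝ)
    (hA : 0 ≤ A) :
    ∃ (B : ℝ) (C : ℕ), ∀ (F : Type) [Field F] [NumberField F], Module.finrank ℚ F ≤ m →
      ∀ (ι : F →+* ℂ) (ξ : Fin g → ℂ) (M : ℕ), {l : ℕ | M ≤ l ∧ l ≤ M ^ τ ∧
        ¬ GoodG F ι ξ d ((l : ℝ) ^ A) ((l : ℝ) ^ (-B)) (fun i => y i (1 / (l : ℂ)))}.ncard ≤ C := by
  classical
  obtain ⟨ρ, hρ, hball⟩ := Metric.isOpen_iff.1 hU 0 h0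
  have hcb : Metric.closedBall (0 : ℂ) (ρ / 2) ⊆ U := (Metric.closedBall_subset_ball (by linarith)).trans hball
  obtain ⟨B, C, T₀, hB, hmain⟩ := seqG hU hc y hy hl m g d (Metric.closedBall (0 : ℂ) (ρ / 2))
    (isCompact_closedBall _ _) hcb A 1 ((τ : ℝ) + 1) hA one_pos (by linarith [(Nat.cast_nonneg τ : (0 : ℝ) ≤ τ)])
  set l₀ : ℕ := max ⌈2 / ρ⌉₊ 1 with hl₀
  set M₁ : ℕ := max ⌈T₀⌉₊ l₀ with hM₁
  have hl₀1 : 1 ≤ l₀ := le_max_right _ _
  have hl₀ρ : 2 / ρ ≤ (l₀ : ℝ) := (Nat.le_ceil _).trans (by exact_mod_cast le_max_left _ _)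
  refine ⟨B, C + (M₁ ^ τ + 1), fun F _ _ hF ι ξ M => ?_⟩
  have hfin : ∀ Q : ℕ → Prop, {n : ℕ | M ≤ n ∧ n ≤ M ^ τ ∧ Q n}.Finite := fun Q =>
    (Finset.Iic (M ^ τ)).finite_toSet.subset fun n hn => Finset.mem_coe.2 (Finset.mem_Iic.2 hn.2.1)
  rcases Nat.lt_or_ge M M₁ with hM | hM
  · refine le_trans ?_ (Nat.le_add_left _ _)
    have h1 : {n : ℕ | M ≤ n ∧ n ≤ M ^ τ ∧
        ¬ GoodG F ι ξ d ((n : ℝ) ^ A) ((n : ℝ) ^ (-B)) (fun i => y i (1 / (n : ℂ)))} ⊆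
        ((Finset.Iic (M₁ ^ τ) : Finset ℕ) : Set ℕ) := fun n hn =>
      Finset.mem_coe.2 (Finset.mem_Iic.2 (hn.2.1.trans (Nat.pow_le_pow_left hM.le τ)))
    refine (Set.ncard_le_ncard h1 (Finset.finite_toSet _)).trans ?_
    rw [Set.ncard_coe_finset, Nat.card_Iic]
  have hMl : l₀ ≤ M := (le_max_right _ _).trans hM
  have hM1 : 1 ≤ M := hl₀1.trans hMl
  have hMT : T₀ ≤ (M : ℝ) := by
    have h1 : ⌈T₀⌉₊ ≤ M := (le_max_left _ _).trans hM
    exact (Nat.le_ceil T₀).trans (by exact_mod_cast h1)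
  refine le_trans ?_ (Nat.le_add_right _ _)
  set Bad : Finset ℕ := (hfin fun n => ¬ GoodG F ι ξ d ((n : ℝ) ^ A) ((n : ℝ) ^ (-B))
    (fun i => y i (1 / (n : ℂ)))).toFinset with hBad
  rw [Set.ncard_eq_toFinset_card _ (hfin _)]
  -- the sequence
  set x : ℕ → F := fun n => 1 / ((n + l₀ : ℕ) : F) with hx
  have hne : ∀ n : ℕ, ((n + l₀ : ℕ) : F) ≠ 0 := fun n => Nat.cast_ne_zero.2 (by omega)
  have hxinj : Function.Injective x := by
    intro a b hab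
    have h1 : (1 : F) / ((a + l₀ : ℕ) : F) = 1 / ((b + l₀ : ℕ) : F) := hab
    rw [div_eq_div_iff (hne a) (hne b), one_mul, one_mul] at h1
    have h2 : b + l₀ = a + l₀ := by exact_mod_cast h1
    omega
  have hιx : ∀ n, ι (x n) = 1 / ((n + l₀ : ℕ) : ℂ) := by
    intro n
    rw [hx]
    simp only [map_div₀, map_one, map_natCast]
  have hpos : ∀ n : ℕ, (0 : ℝ) < ((n + l₀ : ℕ) : ℝ) := fun n => by
    have : 0 < n + l₀ := by omega
    exact_mod_cast this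
  have hxK : ∀ n, ι (x n) ∈ Metric.closedBall (0 : ℂ) (ρ / 2) := by
    intro n
    rw [mem_closedBall_zero_iff, hιx, norm_div, norm_one, Complex.norm_natCast, div_le_iff₀ (hpos n)]
    have h1 : (l₀ : ℝ) ≤ ((n + l₀ : ℕ) : ℝ) := by exact_mod_cast Nat.le_add_left _ _
    have h2 : 2 / ρ ≤ ((n + l₀ : ℕ) : ℝ) := hl₀ρ.trans h1
    rw [div_le_iff₀ hρ] at h2
    linarith
  have hdist : ∀ n l : ℕ, n ≤ l → ‖ι (x n) - ι (x l)‖ ≤ ((n + l₀ : ℕ) : ℝ) ^ (-(1 : ℝ)) := by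
    intro n l hnl
    rw [hιx, hιx]
    have h1 : (1 : ℂ) / ((n + l₀ : ℕ) : ℂ) - 1 / ((l + l₀ : ℕ) : ℂ) =
        ((1 / ((n + l₀ : ℕ) : ℝ) - 1 / ((l + l₀ : ℕ) : ℝ) : ℝ) : ℂ) := by
      push_cast
      rfl
    have h2 : 1 / ((l + l₀ : ℕ) : ℝ) ≤ 1 / ((n + l₀ : ℕ) : ℝ) :=
      one_div_le_one_div_of_le (hpos n) (by exact_mod_cast (by omega : n + l₀ ≤ l + l₀))
    have h3 : 0 ≤ 1 / ((l + l₀ : ℕ) : ℝ) := by positivity
    rw [h1, Complex.norm_real, Real.norm_eq_abs, abs_of_nonneg (by linarith), Real.rpow_neg_one, ← one_div]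
    linarith
  have hht : ∀ n : ℕ, ∃ a b : 𝓞 F, b ≠ 0 ∧ (∀ φ : F →+* ℂ, ‖φ a‖ ≤ ((n + l₀ : ℕ) : ℝ) ∧
      ‖φ b‖ ≤ ((n + l₀ : ℕ) : ℝ)) ∧ x n = a / b := by
    intro n
    refine ⟨1, ((n + l₀ : ℕ) : 𝓞 F), Nat.cast_ne_zero.2 (by omega), fun φ => ?_, ?_⟩
    · simp only [map_natCast, map_one, Complex.norm_natCast, norm_one]
      refine ⟨?_, le_rfl⟩
      exact_mod_cast (by omega : 1 ≤ n + l₀)
    · rw [hx]
      simp only [map_natCast, map_one]
  have key := hmain F hF ι ξ (fun n => ((n + l₀ : ℕ) : ℝ)) x hxK hht hdist (M : ℝ) hMT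
    (Bad.image fun n => x (n - l₀)) (by
    intro z hz
    rw [Finset.mem_image] at hz
    obtain ⟨n, hn, rfl⟩ := hz
    rw [hBad, Set.Finite.mem_toFinset] at hn
    obtain ⟨h1, h2, h3⟩ := hn
    obtain ⟨l, rfl⟩ : ∃ l, n = l + l₀ := ⟨n - l₀, by omega⟩
    refine ⟨l, by rw [Nat.add_sub_cancel], by exact_mod_cast h1, ?_, fun hg => h3 ?_⟩
    · have h4 : l + l₀ ≤ M ^ (τ + 1) := h2.trans (Nat.pow_le_pow_right hM1 (Nat.le_succ τ))
      have h5 : (M : ℝ) ^ ((τ : ℝ) + 1) = ((M ^ (τ + 1) : ℕ) : ℝ) := by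
        push_cast
        rw [← Real.rpow_natCast]
        push_cast
        rfl
      rw [h5]
      exact_mod_cast h4
    · rw [hιx l] at hg
      exact hg)
  rw [Finset.card_image_of_injOn] at key
  · exact key
  · intro a ha b hb hab
    rw [Finset.mem_coe, hBad, Set.Finite.mem_toFinset] at ha hb
    have h1 := hMl.trans ha.1
    have h2 := hMl.trans hb.1
    have h3 : a - l₀ = b - l₀ := hxinj hab
    omega

end Pool.Agent.H43S
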